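import Pool.Agent.K7.H88.EF.Fin2

/-!
# Entire curves given by compositions with elliptic functions

We consider the smallest class `EFun` of functions on the plane which contains the constants and the
coordinate `z`, is closed under sums, products and inverses, and contains `e^u` and `h ∘ u` for all
entire functions `u` of the class and all elliptic functions `h`, for arbitrary lattices. The
lattices need not be related to each other, and the operations can be iterated: the class contains
`℘₁(e^(z ^ 2)) / (℘₂(z) + e^(e^z))`.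

The Zariski closure of the union of the nonconstant entire curves in a projective algebraic set with
homogeneous coordinates in this class is the Zariski closure of the union of the images of the
nonconstant holomorphic maps from one-dimensional complex tori. If the projective algebraic set
admits no nonconstant holomorphic map from a one-dimensional complex torus, then every entire curve
of this kind in it is constant.
-/

set_option autoImplicit false

namespace Pool.Agent.Results.MP_b9fedf_ag.EllipticCompositions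

open Filter MvPolynomial
open scoped LinearAlgebra.Projectivization
open Pool.Agent.TH143.EL (HolMap Rep InV TorusMapsIn)
open Pool.Agent.TH600.LK (torus_coords_ell)
open Pool.Agent.K7.H88.EF (ef_main)

variable {N : ℕ}

/-- the Zariski closure of a set of points of the projective space -/
def ZClosure (S : Set (ℙ ℂ (Fin (N + 1) → ℂ))) : Set (ℙ ℂ (Fin (N + 1) → ℂ)) :=
  {p | ∀ G : MvPolynomial (Fin (N + 1)) ℂ, (∃ d, G.IsHomogeneous d) →
    (∀ x ∈ S, eval x.rep G = 0) → eval p.rep G = 0}

/-- nonconstant entire curves in the projective algebraic set of `I` -/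
structure EntireCurve (I : Ideal (MvPolynomial (Fin (N + 1)) ℂ))
    (f : ℂ → ℙ ℂ (Fin (N + 1) → ℂ)) : Prop where
  hol : HolMap f
  mem : ∀ z, InV I (f z)
  nonconst : ∃ z w, f z ≠ f w

/-- elliptic functions, with respect to an arbitrary lattice -/
def Elliptic (h : ℂ → ℂ) : Prop :=
  Meromorphic h ∧ ∃ ω₁ ω₂ : ℂ, LinearIndependent ℝ ![ω₁, ω₂] ∧
    (∀ z, h (z + ω₁) = h z) ∧ ∀ z, h (z + ω₂) = h z

/-- the smallest class of functions which contains the constants and `z`, is closed under the
rational operations, and contains `e^u` and `h ∘ u` for all entire functions `u` of the class and all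
elliptic functions `h` -/
inductive EFun : (ℂ → ℂ) → Prop
  | const (c : ℂ) : EFun fun _ => c
  | id : EFun fun z => z
  | add {f g : ℂ → ℂ} : EFun f → EFun g → EFun fun z => f z + g z
  | mul {f g : ℂ → ℂ} : EFun f → EFun g → EFun fun z => f z * g z
  | inv {f : ℂ → ℂ} : EFun f → EFun fun z => (f z)⁻¹
  | exp {u : ℂ → ℂ} : EFun u → Differentiable ℂ u → EFun fun z => Complex.exp (u z)
  | ell {u h : ℂ → ℂ} : EFun u → Differentiable ℂ u → Elliptic h → EFun fun z => h (u z)

/-- entire curves with homogeneous coordinates in the class (outside of a discrete set) -/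
def EllipticComposition (f : ℂ → ℙ ℂ (Fin (N + 1) → ℂ)) : Prop :=
  ∃ g : Fin (N + 1) → ℂ → ℂ, (∀ j, EFun (g j)) ∧ ∀ᶠ z in codiscrete ℂ, Rep (f z) fun j => g j z

/-- entire curves which factor through a one-dimensional complex torus -/
def DoublyPeriodic (f : ℂ → ℙ ℂ (Fin (N + 1) → ℂ)) : Prop :=
  ∃ ω₁ ω₂ : ℂ, LinearIndependent ℝ ![ω₁, ω₂] ∧ (∀ z, f (z + ω₁) = f z) ∧ ∀ z, f (z + ω₂) = f z

/-- the special set given by the one-dimensional complex tori -/
def SpTor (I : Ideal (MvPolynomial (Fin (N + 1)) ℂ)) : Set (ℙ ℂ (Fin (N + 1) → ℂ)) :=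
  ZClosure {x | ∃ f, EntireCurve I f ∧ DoublyPeriodic f ∧ ∃ z, f z = x}

/-- the special set given by the compositions with elliptic functions -/
def SpEll (I : Ideal (MvPolynomial (Fin (N + 1)) ℂ)) : Set (ℙ ℂ (Fin (N + 1) → ℂ)) :=
  ZClosure {x | ∃ f, EntireCurve I f ∧ EllipticComposition f ∧ ∃ z, f z = x}

theorem subset_ZClosure (S : Set (ℙ ℂ (Fin (N + 1) → ℂ))) : S ⊆ ZClosure S :=
  fun x hx _ _ h => h x hx

/-- the ideal generated by the forms vanishing on `S` -/
noncomputable def idealOf (S : Set (ℙ ℂ (Fin (N + 1) → ℂ))) :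
    Ideal (MvPolynomial (Fin (N + 1)) ℂ) :=
  Ideal.span {G | (∃ d, G.IsHomogeneous d) ∧ ∀ x ∈ S, eval x.rep G = 0}

theorem eval_idealOf {S : Set (ℙ ℂ (Fin (N + 1) → ℂ))} {x : ℙ ℂ (Fin (N + 1) → ℂ)} (hx : x ∈ S)
    {G : MvPolynomial (Fin (N + 1)) ℂ} (hG : G ∈ idealOf S) : eval x.rep G = 0 := by
  have h1 : idealOf S ≤ RingHom.ker (eval x.rep) := by
    unfold idealOf
    rw [Ideal.span_le]
    intro G hG
    exact hG.2 x hx
  exact h1 hG

theorem inV_idealOf_iff {S : Set (ℙ ℂ (Fin (N + 1) → ℂ))} {p : ℙ ℂ (Fin (N + 1) → ℂ)} :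
    InV (idealOf S) p ↔ p ∈ ZClosure S := by
  constructor
  · intro h G hG hGS
    exact h G (Ideal.subset_span ⟨hG, hGS⟩) hG
  · intro h G hG hGh
    exact h G hGh fun x hx => eval_idealOf hx hG

theorem EFun.lib {f : ℂ → ℂ} (h : EFun f) : Pool.Agent.K7.H88.EF.EFun f := by
  induction h with
  | const c => exact .const c
  | id => exact .id
  | add _ _ h1 h2 => exact h1.add h2
  | mul _ _ h1 h2 => exact h1.mul h2
  | inv _ h => exact h.inv
  | exp _ hu h => exact h.exp hu
  | ell _ hu he h => exact h.ell hu he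

/-- Let `X` be the projective algebraic set of `I`.

(1) The Zariski closure of the union of the nonconstant entire curves in `X` with homogeneous
coordinates in the class `EFun` is the Zariski closure of the union of the images of the nonconstant
holomorphic maps from one-dimensional complex tori to `X`.

(2) If every holomorphic map from a one-dimensional complex torus to `X` is constant, then every
holomorphic map from the plane to `X` with homogeneous coordinates in the class `EFun` is
constant. -/
theorem result (I : Ideal (MvPolynomial (Fin (N + 1)) ℂ)) :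
    SpEll I = SpTor I ∧
    ((∀ ω₁ ω₂ : ℂ, LinearIndependent ℝ ![ω₁, ω₂] → ∀ t : ℂ → ℙ ℂ (Fin (N + 1) → ℂ), HolMap t →
        (∀ z, t (z + ω₁) = t z) → (∀ z, t (z + ω₂) = t z) → (∀ z, InV I (t z)) →
        ∀ z w, t z = t w) →
      ∀ f, HolMap f → (∀ z, InV I (f z)) → EllipticComposition f → ∀ z w, f z = f w) := by
  classical
  refine ⟨?_, ?_⟩
  · apply Set.Subset.antisymm
    · have hT : TorusMapsIn I (idealOf {x | ∃ f, EntireCurve I f ∧ DoublyPeriodic f ∧
          ∃ z, f z = x}) := by
        intro ω₁ ω₂ hind f hf h1 h2 hI hnc z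
        rw [inV_idealOf_iff]
        exact subset_ZClosure _ ⟨f, ⟨hf, hI, hnc⟩, ⟨ω₁, ω₂, hind, h1, h2⟩, z, rfl⟩
      intro p hp G hG hGS
      apply hp G hG
      rintro x ⟨f, ⟨hf, hI, hnc⟩, ⟨g, hg, hr⟩, z, rfl⟩
      have h3 := ef_main hT hf (fun a => (hg a).lib) hr hI hnc z
      rw [inV_idealOf_iff] at h3
      exact h3 G hG hGS
    · intro p hp G hG hGS
      apply hp G hG
      rintro x ⟨f, ⟨hf, hI, hnc⟩, ⟨ω₁, ω₂, hind, h1, h2⟩, z, rfl⟩
      obtain ⟨h, hl, hr⟩ := torus_coords_ell hf h1 h2
      exact hGS _ ⟨f, ⟨hf, hI, hnc⟩, ⟨fun j z => h z j, fun j =>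
        EFun.ell EFun.id differentiable_id ⟨(hl j).1, ω₁, ω₂, hind, (hl j).2.1, (hl j).2.2⟩, hr⟩,
        z, rfl⟩
  · rintro hT f hf hI ⟨g, hg, hr⟩ z w
    by_contra hzw
    have h3 := ef_main (I := I) (I' := ⊤) (fun ω₁ ω₂ hind t ht h4 h5 h6 h7 => by
      obtain ⟨a, b, hab⟩ := h7
      exact absurd (hT ω₁ ω₂ hind t ht h4 h5 h6 a b) hab) hf (fun a => (hg a).lib) hr hI
      ⟨z, w, hzw⟩ z 1 Submodule.mem_top ⟨0, isHomogeneous_one _ _⟩
    rw [map_one] at h3
    exact one_ne_zero h3

end Pool.Agent.Results.MP_b9fedf_ag.EllipticCompositions
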