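import Pool.Agent.K7.H75.LG.Lac
import Pool.Agent.TH182.TC.Core

/-!
# Entire curves dominated by few terms of a lacunary Taylor series

Let `X` be a closed subset of the complex projective space (classical topology), given by its cone;
for instance a projective variety. An entire curve in `X` is given by a vector `f` of entire
functions without common zeros (`Cur X f`), with Taylor series `f = ∑ a_k z ^ k`, `a_k = coef f k`;
vectors are measured by the maximum norm. `RatCurve X d`: `X` contains a nonconstant rational curve
of degree at most `d`.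

`Dominated f d R ε r μ n w`: on the circle `|z| = r`, and on the annulus
`r R ^ (-1/w) ≤ |z| ≤ r R ^ (1/w)` around it, the series is dominated, up to `ε μ`, by the terms of
index `n, n + w, …, n + d w`, and at least two of these terms have on the circle the maximal size
`μ`. For `w = 1` this is a cluster of at most `d` isolated jumps of the central index; for these, see
`MP_45e720_ag.IsolatedTerms` of the starting repository. The new case is that of arbitrary gaps `w`:
the width of the annulus, on which the other terms have to be small, shrinks with the gap, and there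
is no restriction for the growth of `f`.

`slope f n j`: for a series `∑ c_j z ^ (n j)`, the slope `s_j` of the segment from `j` to `j + 1` of
its Newton polygon, i.e. the logarithm of the radius for which the terms `j`, `j + 1` have the same
size.

`EllipticRigid F` (`Pool/Agent/TH182/TC/Core.lean`, from the starting repository): every holomorphic
map from a one-dimensional complex torus to the projective variety `F = 0` is constant.
-/

set_option autoImplicit false

namespace Pool.Agent.Results.MP_b9fedf_ag.LacunaryCurves

open MvPolynomial Filter Set Pool.Agent.K7.H75.LG Pool.Agent.TH182.TC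

variable {N : ℕ}

/-- the cone of the projective variety `F = 0` -/
def ConeOf {ι : Type} (F : ι → MvPolynomial (Fin (N + 1)) ℂ) : Set (Fin (N + 1) → ℂ) :=
  {x | ∀ i, eval x (F i) = 0}

theorem coneOf_closed {ι : Type} (F : ι → MvPolynomial (Fin (N + 1)) ℂ) : IsClosed (ConeOf F) := by
  have h : ConeOf F = ⋂ i, {x | eval x (F i) = 0} := by
    ext x
    simp [ConeOf]
  rw [h]
  exact isClosed_iInter fun i => isClosed_eq (MvPolynomial.continuous_eval (F i)) continuous_const

theorem coneOf_smul {ι : Type} {F : ι → MvPolynomial (Fin (N + 1)) ℂ}
    (hF : ∀ i, ∃ e, (F i).IsHomogeneous e) (a : ℂ) (x : Fin (N + 1) → ℂ) (hx : x ∈ ConeOf F) :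
    a • x ∈ ConeOf F := by
  intro i
  obtain ⟨e, he⟩ := hF i
  rw [eval_smul_of_homog he, hx i, mul_zero]

theorem not_ratCurve {ι : Type} {F : ι → MvPolynomial (Fin (N + 1)) ℂ}
    (hF : ∀ i, ∃ e, (F i).IsHomogeneous e) (h : EllipticRigid F) (d : ℕ) :
    ¬ RatCurve (ConeOf F) d := by
  rintro ⟨P, -, h1, h2, s, t, p, q, h3⟩
  exact h3 (no_rational hF h P h1 h2 s t p q)

/-- The curves in `X` are not dominated by `d + 1` terms in arithmetic progression: there are
`R > 1`, `ε > 0` which depend only on `X` and `d`. -/
def NoDomination (X : Set (Fin (N + 1) → ℂ)) (d : ℕ) : Prop :=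
  ∃ R ε : ℝ, 1 < R ∧ 0 < ε ∧ ∀ f, Cur X f → ∀ (r μ : ℝ) (n w : ℕ), ¬ Dominated f d R ε r μ n w

/-- There is a constant `C` such that for all entire curves in `X` whose Taylor series is
`∑ c_j z ^ (n j)` with increasing `n j` and nonzero `c_j`, `j = 0, 1, …`, the slopes `s_j` satisfy
`(s_{j+1} - s_j) min (n_{j+1} - n_j, n_{j+2} - n_{j+1}) ≤ C` for infinitely many `j`. -/
def SlopesBounded (X : Set (Fin (N + 1) → ℂ)) : Prop :=
  ∃ C : ℝ, ∀ f, Cur X f → ∀ n : ℕ → ℕ, StrictMono n → (∀ k, coef f k ≠ 0 ↔ ∃ j, n j = k) →
    ∃ᶠ j in atTop, (slope f n (j + 1) - slope f n j) *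
      min ((n (j + 1) : ℝ) - n j) ((n (j + 2) : ℝ) - n (j + 1)) ≤ C

/-- Let `X` be a closed subset of the projective space, given by its cone.

(1) If `X` contains no rational curve of degree at most `d`, then there are `R > 1` and `ε > 0`,
which depend only on `X` and `d`, such that no entire curve in `X` is dominated, on a circle and up
to `R`, `ε`, by `d + 1` terms in arithmetic progression, two of them of maximal size.

(2) If `X` contains no line, then there is a constant `C`, which depends only on `X`, such that for
all entire curves in `X` with a Taylor series `∑ c_j z ^ (n j)`, all `c_j` nonzero, `j = 0, 1, …`, the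
slopes `s_j` satisfy `(s_{j+1} - s_j) min (n_{j+1} - n_j, n_{j+2} - n_{j+1}) ≤ C` for infinitely
many `j`.

(3) If `X` is a projective variety such that every holomorphic map from a one-dimensional complex
torus to `X` is constant, this applies: the conclusion of (1) holds for all `d`, and the conclusion
of (2) holds. -/
theorem result :
    (∀ X : Set (Fin (N + 1) → ℂ), IsClosed X → (∀ (a : ℂ), ∀ x ∈ X, a • x ∈ X) →
      (∀ d, ¬ RatCurve X d → NoDomination X d) ∧ (¬ RatCurve X 1 → SlopesBounded X)) ∧
    ∀ (ι : Type) (F : ι → MvPolynomial (Fin (N + 1)) ℂ), (∀ i, ∃ e, (F i).IsHomogeneous e) →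
      EllipticRigid F → (∀ d, NoDomination (ConeOf F) d) ∧ SlopesBounded (ConeOf F) := by
  refine ⟨fun X hX hs => ⟨fun d hd => not_dominated hX hs hd, fun h => lacunary hX hs h⟩,
    fun ι F hF hE => ⟨fun d => ?_, ?_⟩⟩
  · exact not_dominated (coneOf_closed F) (coneOf_smul hF) (not_ratCurve hF hE d)
  · exact lacunary (coneOf_closed F) (coneOf_smul hF) (not_ratCurve hF hE 1)

end Pool.Agent.Results.MP_b9fedf_ag.LacunaryCurves
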