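import Pool.Agent.K7.H11.LM.Fin

/-!
MP_b9fedf_ag, Q1: open sets of Brody hyperbolic complete intersections of low multidegree, in
projective space and on every projective variety.

Let `n ≥ 1` and let `d_1, …, d_r` be degrees such that there are `2 n - 1` disjoint groups of them
with `∑ (d_l - 1) ≥ 3` in every group. For instance:
* all `d_l ≥ 2` and `r ≥ 6 n - 3` (groups of three; for instance quadrics);
* all `d_l ≥ 3` and `r ≥ 4 n - 2` (groups of two);
* all `d_l ≥ 4` and `r ≥ 2 n - 1` (groups of one).

Then there is a nonempty open set (in the classical topology) of the space of all `r`-tuples of forms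
of degrees `d_1, …, d_r` in `n + r + 1` variables such that all the corresponding intersections of
hypersurfaces in `ℙⁿ⁺ʳ` are Brody hyperbolic; they include smooth complete intersections of
dimension `n`, since those are given by a dense set of tuples. The degrees do not grow with `n`, and
the codimension is linear in `n` (for quadrics and `r ≤ 2 n - 2` it is well known that all these
intersections contain lines). The theorem is proved on an arbitrary projective variety `Y` of
dimension `n + r` instead of `ℙⁿ⁺ʳ`.

Proof. The coordinates of `ℙⁿ⁺ʳ` are the `n + 1` coefficients of a polynomial `f` of degree at most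
`n` in one variable and `y_1, …, y_r`. Let `s_1, …, s_{2n-1}` be distinct numbers. The equations
`y_l ^ d_l = f(s_i) ^ d_l - (t_l f'(s_i)) ^ d_l` for `l` in the `i`-th group, and `y_l ^ d_l = 0` for
the remaining `l`, define a (highly degenerate) intersection `X`. For every `i` the equations of the
`i`-th group define a smooth curve, a cyclic cover of the line with the coordinates
`f(s_i) : f'(s_i)`. It is hyperbolic: by Brody's lemma it is enough to consider entire curves with
bounded derivative, and the quotients of the Wronskian by the product of the `y_l ^ (d_l - 1)`,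
multiplied by monomials, are bounded entire functions. So the ratios `f(s_i) : f'(s_i)` are constant
on every entire curve in `X`. The Wronskian of two values of `f` has degree at most `2 n - 2` and
vanishes at the `2 n - 1` points `s_i`, so it is zero, and `f` is constant up to factors. So `X` is
hyperbolic, and hyperbolicity is an open property (Brody; formalised in `Pool.Agent.Y190.OP`).
-/

set_option autoImplicit false

namespace Pool.Agent.Results.MP_b9fedf_ag.LowDegreeIntersections

open MvPolynomial

/-- The projective variety in `ℙᴺ` with the equations `T` is Brody hyperbolic: every entire curve in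
it, given by entire functions `f_0, …, f_N` without common zeros, is constant. -/
def BrodyHyperbolic {N : ℕ} (T : Set (MvPolynomial (Fin (N + 1)) ℂ)) : Prop :=
  ∀ f : ℂ → (Fin (N + 1) → ℂ), Differentiable ℂ f → (∀ z, f z ≠ 0) →
    (∀ z, ∀ p ∈ T, eval (f z) p = 0) → ∀ z w, ∃ c : ℂ, f w = c • f z

/-- Let `d_1, …, d_r ≥ 1`, and let `I 1, …, I (2 n - 1)` be disjoint sets of indices such that the
sum of the `d_l - 1` for `l` in `I i` is at least three for every `i`. Let `Y` be a closed subset of
`ℙᴺ`, given by a set `S` of forms, and let `e ≥ 1` be such that there are `n + r + 1` forms `L i` of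
degree `e` without common zeros on `Y` (if `Y` has dimension at most `n + r` this is so for every
`e ≥ 1`; for instance `Y = ℙⁿ⁺ʳ`, `e = 1` and `L i` the coordinates). Then there are forms
`F0 1, …, F0 r` of degrees `e d_1, …, e d_r` and `ε > 0` such that for all forms `F 1, …, F r` of these
degrees, whose coefficients differ from those of the `F0 l` by less than `ε`, the variety
`{x ∈ Y | F 1 (x) = … = F r (x) = 0}` is Brody hyperbolic. -/
theorem result (n r : ℕ) (d : Fin r → ℕ) (hd : ∀ l, 1 ≤ d l)
    (I : Fin (2 * n - 1) → Finset (Fin r)) (hI : ∀ i j, i ≠ j → Disjoint (I i) (I j))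
    (hw : ∀ i, 3 ≤ ∑ l ∈ I i, (d l - 1))
    (N : ℕ) (S : Set (MvPolynomial (Fin (N + 1)) ℂ)) (hS : ∀ p ∈ S, ∃ a, p.IsHomogeneous a)
    (e : ℕ) (he : 1 ≤ e) (L : Fin (n + r + 1) → MvPolynomial (Fin (N + 1)) ℂ)
    (hL : ∀ i, (L i).IsHomogeneous e)
    (hL0 : ∀ x, x ≠ 0 → (∀ p ∈ S, eval x p = 0) → ∃ i, eval x (L i) ≠ 0) :
    ∃ F0 : Fin r → MvPolynomial (Fin (N + 1)) ℂ, (∀ l, (F0 l).IsHomogeneous (e * d l)) ∧
      ∃ ε : ℝ, 0 < ε ∧ ∀ F : Fin r → MvPolynomial (Fin (N + 1)) ℂ,
        (∀ l, (F l).IsHomogeneous (e * d l)) →
        (∀ l m, ‖(F l).coeff m - (F0 l).coeff m‖ < ε) →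
        BrodyHyperbolic (S ∪ Set.range F) := by
  obtain ⟨F0, h0, ε, hε, h⟩ := Pool.Agent.K7.H11.LM.final n r d hd I hI hw N S hS e he L hL hL0
  refine ⟨F0, h0, ε, hε, fun F hF hclose f hf hf0 hfT z w => ?_⟩
  exact h F hF hclose f hf hf0 (fun z p hp => hfT z p (Or.inl hp))
    (fun z l => hfT z _ (Or.inr ⟨l, rfl⟩)) w z

end Pool.Agent.Results.MP_b9fedf_ag.LowDegreeIntersections
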