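import Pool.Agent.K7.H11.GG.Var

/-!
MP_b9fedf_ag, Q1: Brody hyperbolicity of the projective varieties given by sufficiently many generic
linear relations between powerful forms; in particular of the generic complete intersections of
dimension `n` and codimension `r` of diagonal hypersurfaces of any degree `d ≥ 2`, for instance
of diagonal quadrics, as soon as `32 n ^ 3 ≤ n + 1 + r`.

The main point is that the exponents need not be large: it is enough that they are at least two.
In terms of orbifolds: if `q ≥ 32 n ^ 3` and `L_1, …, L_q` are generic hyperplanes in `ℙⁿ`, then all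
entire curves in `ℙⁿ` which meet every `L_i` only with multiplicities at least two are constant
(`Pool.Agent.K7.H11.GG.orb`).

Proof: a dimension count gives symmetric differential forms on `ℙⁿ` with values in a negative line
bundle whose poles along `16 n ^ 2` hyperplanes are of the order allowed for the multiplicity two;
after Brody's reparametrisation such a form, evaluated on the curve, is a bounded section, so it
vanishes by Liouville's theorem. With `2 n` disjoint groups of `16 n ^ 2` generic hyperplanes there
is, for every tangent direction at every point, a form of this kind for one of the groups which does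
not vanish there (a count of transcendence degrees), so the curve is constant.
-/

set_option autoImplicit false

namespace Pool.Agent.Results.MP_b9fedf_ag.PowerfulRelations

open MvPolynomial

/-- The projective variety in `ℙᴺ` with the equations `T` is Brody hyperbolic: every entire curve in
it, given by entire functions `f_0, …, f_N` without common zeros, is constant. -/
def BrodyHyperbolic {N : ℕ} (T : Set (MvPolynomial (Fin (N + 1)) ℂ)) : Prop :=
  ∀ f : ℂ → (Fin (N + 1) → ℂ), Differentiable ℂ f → (∀ z, f z ≠ 0) →
    (∀ z, ∀ p ∈ T, eval (f z) p = 0) → ∀ z w, ∃ c : ℂ, f w = c • f z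

/-- A powerful polynomial: a product of powers of polynomials with exponents at least two.
(Every integer which is at least two is of the form `2 a + 3 b`.) -/
def Powerful {N : ℕ} (P : MvPolynomial (Fin (N + 1)) ℂ) : Prop :=
  ∃ G H : MvPolynomial (Fin (N + 1)) ℂ, P = G ^ 2 * H ^ 3

/-- Let `n ≥ 1` and `n + 1 + r ≥ 32 n ^ 3`. There is a nonzero polynomial `h` with rational
coefficients in the entries of the `r × (n + 1 + r)` matrices such that for all complex matrices `C`
with `h(C) ≠ 0` the following holds for all `N` and all `d ≥ 1`.

Let `Y` be any closed subvariety of `ℙᴺ`, given by a set `S` of forms, and let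
`F_0, …, F_{n+r}` be powerful forms of degree `d` without common zeros on `Y`. Then the subvariety
`X = {x ∈ Y | ∑ i, C l i * F_i(x) = 0 for all l}` of `Y` is Brody hyperbolic: every holomorphic map
from `ℂ` to `X` is constant. -/
theorem result (n r : ℕ) (hn : 1 ≤ n) (hr : 32 * n ^ 3 ≤ n + 1 + r) :
    ∃ h : MvPolynomial (Fin r × Fin (n + 1 + r)) ℚ, h ≠ 0 ∧
      ∀ C : Matrix (Fin r) (Fin (n + 1 + r)) ℂ,
        aeval (fun p : Fin r × Fin (n + 1 + r) => C p.1 p.2) h ≠ 0 →
      ∀ (N d : ℕ), 1 ≤ d → ∀ (S : Set (MvPolynomial (Fin (N + 1)) ℂ))
        (F : Fin (n + 1 + r) → MvPolynomial (Fin (N + 1)) ℂ),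
        (∀ p ∈ S, ∃ e, p.IsHomogeneous e) → (∀ i, (F i).IsHomogeneous d) →
        (∀ i, Powerful (F i)) →
        (∀ x, x ≠ 0 → (∀ p ∈ S, eval x p = 0) → ∃ i, eval x (F i) ≠ 0) →
        BrodyHyperbolic (S ∪ Set.range fun l => ∑ i, MvPolynomial.C (C l i) * F i) := by
  obtain ⟨h, hh, hmain⟩ := Pool.Agent.K7.H11.GG.main n r hn hr
  refine ⟨h, hh, fun C hC N d hd S F hS hF hpow hne f hf hf0 hfT => ?_⟩
  refine hmain C hC (N + 1) d hd S F hS hF hpow hne f hf hf0
    (fun z p hp => hfT z p (Or.inl hp)) (fun z l => ?_)
  have h1 := hfT z _ (Or.inr ⟨l, rfl⟩)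
  rw [map_sum] at h1
  rw [← h1]
  refine Finset.sum_congr rfl fun i _ => ?_
  rw [map_mul, eval_C]

end Pool.Agent.Results.MP_b9fedf_ag.PowerfulRelations
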